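import Pool.Agent.Helper21.DN.Stmts

set_option autoImplicit false

namespace Pool.Agent.Helper21.DN

universe u

/-- number of elements of the `q`-element subfield -/
theorem fi1_card (p : ℕ) [Fact p.Prime] (k : Type u) [Field k] [CharP k p] [IsAlgClosed k]
    (g : ℕ) (hg : 1 ≤ g) : Nat.card {c : k | c ^ p ^ g = c} = p ^ g := by
  classical
  have hp : 1 < p := (Fact.out : p.Prime).one_lt
  have h1 : 1 < p ^ g := Nat.one_lt_pow (by omega) hp
  set f : Polynomial k := Polynomial.X ^ (p ^ g) - Polynomial.X with hf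
  have hsep : f.Separable := galois_poly_separable p (p ^ g) (dvd_pow_self p (by omega))
  have hdeg : f.natDegree = p ^ g := FiniteField.X_pow_card_sub_X_natDegree_eq k h1
  have hne : f ≠ 0 := FiniteField.X_pow_card_sub_X_ne_zero k h1
  have hsp : (f.map (algebraMap k k)).Splits := IsAlgClosed.splits _
  have hc := Polynomial.card_rootSet_eq_natDegree (K := k) hsep hsp
  have hset : f.rootSet k = {c : k | c ^ p ^ g = c} := by
    ext c
    rw [Polynomial.mem_rootSet]
    simp only [hf, map_sub, map_pow, Polynomial.aeval_X, Set.mem_ofPred_eq, sub_eq_zero]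
    constructor
    · exact fun h => h.2
    · exact fun h => ⟨hne, h⟩
  rw [← hset, Nat.card_eq_fintype_card, hc, hdeg]

/-- cancellation of a positive multiple in `WithTop ℤ` -/
theorem fi1_smul (n : ℕ) (hn : 0 < n) (a b : WithTop ℤ) (h : n • a = n • b) : a = b := by
  obtain ⟨m, rfl⟩ : ∃ m, n = m + 1 := ⟨n - 1, by omega⟩
  induction a using WithTop.recTopCoe with
  | top =>
    induction b using WithTop.recTopCoe with
    | top => rfl
    | coe b =>
      exfalso
      rw [succ_nsmul, add_top, ← WithTop.coe_nsmul] at h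
      exact WithTop.top_ne_coe h
  | coe a =>
    induction b using WithTop.recTopCoe with
    | top =>
      exfalso
      rw [succ_nsmul (⊤ : WithTop ℤ), add_top, ← WithTop.coe_nsmul] at h
      exact WithTop.coe_ne_top h
    | coe b =>
      rw [← WithTop.coe_nsmul, ← WithTop.coe_nsmul] at h
      have h2 := WithTop.coe_injective h
      rw [nsmul_eq_mul, nsmul_eq_mul] at h2
      have h3 : ((m + 1 : ℕ) : ℤ) ≠ 0 := by positivity
      rw [mul_left_cancel₀ h3 h2]

/-- the valuation of `w` -/
theorem fi1_val {M : Type u} [Field M] (v : AddValuation M (WithTop ℤ)) (q : ℕ) (hq : 2 ≤ q)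
    (w : M) (N : ℤ) (hN : 0 < N) (h : v (w ^ q - w) = ((-(q * N) : ℤ) : WithTop ℤ)) :
    v w = ((-N : ℤ) : WithTop ℤ) := by
  have hneg : v (w ^ q - w) < 0 := by
    rw [h]
    have : (-(q * N) : ℤ) < 0 := by
      have : (0 : ℤ) < q * N := by positivity
      omega
    exact_mod_cast this
  have hw : v w < 0 := by
    by_contra hc
    rw [not_lt] at hc
    have h1 : (0 : WithTop ℤ) ≤ v (w ^ q) := by
      rw [v.map_pow]
      exact nsmul_nonneg hc q
    have h2 := v.map_sub (w ^ q) w
    have h3 : (0 : WithTop ℤ) ≤ min (v (w ^ q)) (v w) := le_min h1 hc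
    exact absurd (lt_of_le_of_lt (h3.trans h2) hneg) (lt_irrefl _)
  obtain ⟨m, hm⟩ : ∃ m : ℤ, v w = (m : WithTop ℤ) := by
    have : v w ≠ ⊤ := fun h0 => by rw [h0] at hw; exact absurd hw not_top_lt
    exact ⟨(v w).untop this, (WithTop.coe_untop _ _).symm⟩
  have hm0 : m < 0 := by
    rw [hm] at hw
    exact_mod_cast hw
  have hpw : v (w ^ q) = ((q * m : ℤ) : WithTop ℤ) := by
    rw [v.map_pow, hm, ← WithTop.coe_nsmul, nsmul_eq_mul]
  have hlt : v (w ^ q) < v w := by
    rw [hpw, hm]
    have : (q * m : ℤ) < m := by nlinarith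
    exact_mod_cast this
  have hsub : v (w ^ q - w) = v (w ^ q) := AddValuation.map_sub_eq_of_lt_left v hlt
  rw [hsub, hpw] at h
  have h4 : (q * m : ℤ) = -(q * N) := by exact_mod_cast h
  have h5 : m = -N := by
    have hq0 : (q : ℤ) ≠ 0 := by positivity
    apply mul_left_cancel₀ hq0
    rw [h4]
    ring
  rw [hm, h5]

/-- the subfield `K(w)` and the ramification outside it -/
theorem st_FI1 (hS1 : ST_S1.{u}) (hRFV : ST_RFV.{u}) (hP3 : ST_P3.{u}) : ST_FI1.{u} := by
  classical
  intro p _ k K M _ _ _ _ _ _ _ _ κ v hR hpg g hg w T j hw hT hj hjq hjs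
  have hp : 1 < p := (Fact.out : p.Prime).one_lt
  have hq1 : 1 < p ^ g := Nat.one_lt_pow (by omega) hp
  have : CharP K p := charP_of_injective_ringHom κ.injective p
  have : CharP M p := charP_of_injective_algebraMap (algebraMap K M).injective p
  -- `j` is additive
  have hinj : Function.Injective (fun c : k => algebraMap K M (κ c)) :=
    (algebraMap K M).injective.comp κ.injective
  have hadd : ∀ σ τ : M ≃ₐ[K] M, j (σ * τ) = j σ + j τ := by
    intro σ τ
    apply hinj
    have h1 : (σ * τ) w = w + algebraMap K M (κ (j (σ * τ))) := hj _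
    have h2 : (σ * τ) w = σ (τ w) := rfl
    rw [h2, hj τ, map_add, hj σ, AlgEquiv.commutes] at h1
    have h3 : algebraMap K M (κ (j (σ * τ))) =
        algebraMap K M (κ (j σ)) + algebraMap K M (κ (j τ)) := by
      have := h1.symm
      rw [add_assoc] at this
      exact add_left_cancel this
    show algebraMap K M (κ (j (σ * τ))) = algebraMap K M (κ (j σ + j τ))
    rw [h3, map_add, map_add]
  have hone : j 1 = 0 := by
    have := hadd 1 1
    rw [mul_one] at this
    exact left_eq_add.mp this
  let φ : (M ≃ₐ[K] M) →* Multiplicative k :=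
    { toFun := fun σ => Multiplicative.ofAdd (j σ)
      map_one' := by rw [hone]; rfl
      map_mul' := fun σ τ => by rw [hadd]; rfl }
  have hφ : ∀ σ, φ σ = 1 ↔ σ w = w := by
    intro σ
    have h1 : φ σ = 1 ↔ j σ = 0 := Iff.rfl
    rw [h1, hj σ]
    constructor
    · intro h
      rw [h, map_zero, map_zero, add_zero]
    · intro h
      have h2 : algebraMap K M (κ (j σ)) = 0 := by
        rw [add_eq_left] at h
        exact h
      apply hinj
      show algebraMap K M (κ (j σ)) = algebraMap K M (κ 0)
      rw [h2, map_zero, map_zero]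
  set G1 : Subgroup (M ≃ₐ[K] M) := φ.ker with hG1
  set E : IntermediateField K M := IntermediateField.fixedField G1 with hE
  have hfix : E.fixingSubgroup = G1 := IntermediateField.fixingSubgroup_fixedField G1
  have hmem : ∀ σ : M ≃ₐ[K] M, σ ∈ E.fixingSubgroup ↔ σ w = w := by
    intro σ
    rw [hfix, hG1, MonoidHom.mem_ker, hφ]
  have hnorm : IsGalois K E := IsGalois.of_fixedField_normal_subgroup G1
  have hwE : w ∈ E := by
    rw [hE, IntermediateField.mem_fixedField_iff]
    intro σ hσ
    exact (hφ σ).mp hσ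
  -- degrees
  have hEM : Module.finrank E M = Nat.card G1 := by
    rw [hE]
    exact IntermediateField.finrank_fixedField_eq_card G1
  have hcG : Nat.card (M ≃ₐ[K] M) = Module.finrank K M := IsGalois.card_aut_eq_finrank K M
  have hidx : G1.index = p ^ g := by
    rw [hG1, Subgroup.index_ker, ← fi1_card p k g hg]
    refine Nat.card_congr (Equiv.subtypeEquivRight ?_)
    intro c
    constructor
    · rintro ⟨σ, rfl⟩
      exact hjq σ
    · intro hc
      obtain ⟨σ, hσ⟩ := hjs c hc
      exact ⟨σ, by rw [← hσ]; rfl⟩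
  have hmulc := G1.card_mul_index
  have htower : Module.finrank K E * Module.finrank E M = Module.finrank K M :=
    Module.finrank_mul_finrank K E M
  have hposEM : 0 < Module.finrank E M := Module.finrank_pos
  have hKE : Module.finrank K E = p ^ g := by
    rw [hcG, hidx, ← htower, hEM, mul_comm] at hmulc
    have : 0 < Nat.card G1 := by rw [← hEM]; exact hposEM
    exact (Nat.eq_of_mul_eq_mul_right this hmulc).symm
  -- the valuation of `w`
  have hvw : v w = ((-(Module.finrank E M : ℤ) : ℤ) : WithTop ℤ) := by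
    apply fi1_val v (p ^ g) (by omega) w (Module.finrank E M : ℤ) (by exact_mod_cast hposEM)
    rw [hw, hT, ← htower, hKE]
    congr 1
  refine ⟨E, hnorm.to_normal, hwE, hKE, hmem, ?_, hvw⟩
  intro σ hσ
  have : Normal K E := hnorm.to_normal
  obtain ⟨vE, hTV, hvE⟩ := hR.sub E
  set wE : E := ⟨w, hwE⟩ with hwEdef
  have hvEw : vE wE = ((-1 : ℤ) : WithTop ℤ) := by
    apply fi1_smul (Module.finrank E M) hposEM
    rw [← hvE wE, ← WithTop.coe_nsmul]
    show v w = _
    rw [hvw]
    congr 1
    rw [nsmul_eq_mul]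
    ring
  set τ : E ≃ₐ[K] E := σ.restrictNormal E with hτ
  have hτc : ∀ x : E, ((τ x : E) : M) = σ (x : M) := fun x =>
    AlgEquiv.restrictNormal_commutes σ E x
  have hτw : τ wE = wE + algebraMap K E (κ (j σ)) := by
    apply Subtype.ext
    rw [hτc]
    show σ w = w + algebraMap K M (κ (j σ))
    exact hj σ
  have hjne : j σ ≠ 0 := by
    intro h0
    apply hσ
    rw [hj σ, h0, map_zero, map_zero, add_zero]
  have hs := hS1 p k E ((algebraMap K E).comp κ) vE hTV (τ : E →+* E)
    (by
      intro c
      show τ (algebraMap K E (κ c)) = algebraMap K E (κ c)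
      exact τ.commutes _)
    (by
      intro x
      apply fi1_smul (Module.finrank E M) hposEM
      rw [← hvE, ← hvE]
      show v ((τ x : E) : M) = v (x : M)
      rw [hτc]
      exact hR.inv σ x)
    (by
      obtain ⟨N, hN⟩ := hpg σ
      refine ⟨N, fun x => ?_⟩
      have h1 : ∀ (i : ℕ) (y : E), (((⇑((τ : E →+* E)))^[i] y : E) : M) = (σ ^ i) (y : M) := by
        intro i
        induction i with
        | zero => intro y; rfl
        | succ i ih =>
          intro y
          rw [Function.iterate_succ_apply, ih, pow_succ]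
          show (σ ^ i) ((τ y : E) : M) = (σ ^ i) (σ (y : M))
          rw [hτc]
      apply Subtype.ext
      rw [h1, hN]
      rfl)
    ⟨wE, by
      intro h0
      apply hσ
      have h1 := congrArg (fun z : E => (z : M)) h0
      have h2 : ((τ wE : E) : M) = (wE : M) := h1
      rw [hτc] at h2
      exact h2⟩
  have hs1 : s vE τ = 1 := by
    have h1 := hs.2.2 wE (-1) hvEw (by
      intro hd
      have : (p : ℤ) ∣ 1 := by
        have := (dvd_neg (a := (p : ℤ)) (b := 1)).mp hd
        exact this
      have h2 := Int.le_of_dvd one_pos this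
      have : (1 : ℤ) < p := by exact_mod_cast hp
      omega)
    have h2 : ((τ : E →+* E) wE - wE : E) = ((algebraMap K E).comp κ) (j σ) := by
      show τ wE - wE = algebraMap K E (κ (j σ))
      rw [hτw]
      ring
    rw [h2, hTV.alg (j σ) hjne] at h1
    have h3 : (0 : ℤ) = -1 + (s vE (τ : E →+* E) : ℤ) := by exact_mod_cast h1
    have h4 : s vE (τ : E →+* E) = s vE τ := rfl
    rw [h4] at h3
    omega
  -- Serre's proposition
  have hP := hP3 p k K M κ v hR hpg E vE hTV hvE σ (by rw [hmem]; exact hσ)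
  rw [← hτ, hs1, mul_one, hEM] at hP
  have hRF := hRFV p k K M κ v hR hpg
  have hge : ∀ h ∈ Finset.univ.filter (fun h : M ≃ₐ[K] M => h ∈ E.fixingSubgroup),
      1 ≤ s v (⇑(σ * h)) := by
    intro h hh
    rw [Finset.mem_filter] at hh
    apply hRF.pos
    intro h0
    apply hσ
    have h1 : σ = h⁻¹ := eq_inv_of_mul_eq_one_left h0
    rw [← hmem, h1]
    exact inv_mem hh.2
  have hcard : (Finset.univ.filter (fun h : M ≃ₐ[K] M => h ∈ E.fixingSubgroup)).card =
      Nat.card G1 := by
    rw [← hfix, Nat.card_eq_fintype_card, Fintype.card_subtype]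
  by_contra hne
  have hlt : ∑ h ∈ Finset.univ.filter (fun h : M ≃ₐ[K] M => h ∈ E.fixingSubgroup), 1 <
      ∑ h ∈ Finset.univ.filter (fun h : M ≃ₐ[K] M => h ∈ E.fixingSubgroup),
        s v (⇑(σ * h)) := by
    apply Finset.sum_lt_sum hge
    have h1 : (1 : M ≃ₐ[K] M) ∈
        Finset.univ.filter (fun h : M ≃ₐ[K] M => h ∈ E.fixingSubgroup) := by
      rw [Finset.mem_filter]
      exact ⟨Finset.mem_univ _, one_mem _⟩
    refine ⟨1, h1, ?_⟩
    have h2 := hge 1 h1
    rw [mul_one] at h2 ⊢
    omega
  have h5 : cs (fun σ : M ≃ₐ[K] M => s v σ) E.fixingSubgroup σ =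
      ∑ h ∈ Finset.univ.filter (fun h : M ≃ₐ[K] M => h ∈ E.fixingSubgroup),
        s v (⇑(σ * h)) := by
    unfold cs
    apply Finset.sum_congr _ (fun _ _ => rfl)
    ext h
    simp
  rw [← h5, ← hP, Finset.sum_const, hcard, smul_eq_mul, mul_one] at hlt
  exact lt_irrefl _ hlt

end Pool.Agent.Helper21.DN
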